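import Pool.Agent.Y731.FG.Stm

/-!
# Project FG (helper731), job FG-LD: lower bounds, logarithmic derivatives, the derivation on
polynomials (by helper141)
-/

set_option autoImplicit false
set_option linter.unusedSectionVars false
set_option linter.unusedVariables false

namespace Pool.Agent.Y141.FG

open FF Filter MvPolynomial Pool.Agent.W603.LV Pool.Agent.W603.PV Pool.Agent.W603.CZ
open Pool.Agent.Y731.FG

section poly

variable {E : Type} [Field E] {t : ℕ}

/-- the exponent sum `∑ s_j κ_j` -/
noncomputable def cs (κ : Fin t → E) (s : Fin t →₀ ℕ) : E := ∑ j, (s j : E) * κ j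

theorem cs_add (κ : Fin t → E) (s s' : Fin t →₀ ℕ) : cs κ (s + s') = cs κ s + cs κ s' := by
  unfold cs
  rw [← Finset.sum_add_distrib]
  refine Finset.sum_congr rfl fun j _ => ?_
  rw [Finsupp.add_apply]
  push_cast
  ring

/-- the derivation of the polynomial ring, as a function -/
noncomputable def dfun (d : Derivation ℤ E E) (κ : Fin t → E) (f : MvPolynomial (Fin t) E) :
    MvPolynomial (Fin t) E :=
  ∑ s ∈ f.support, monomial s (d (f.coeff s) + f.coeff s * cs κ s)

theorem coeff_dfun (d : Derivation ℤ E E) (κ : Fin t → E) (f : MvPolynomial (Fin t) E)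
    (s : Fin t →₀ ℕ) : (dfun d κ f).coeff s = d (f.coeff s) + f.coeff s * cs κ s := by
  classical
  unfold dfun
  rw [coeff_sum]
  simp only [coeff_monomial]
  rw [Finset.sum_ite_eq' f.support s]
  split_ifs with h
  · rfl
  · rw [notMem_support_iff.1 h, map_zero, zero_mul, zero_add]

/-- the derivation of the polynomial ring -/
noncomputable def dpol (d : Derivation ℤ E E) (κ : Fin t → E) :
    Derivation ℤ (MvPolynomial (Fin t) E) (MvPolynomial (Fin t) E) :=
  Derivation.mk'
    (AddMonoidHom.toIntLinearMap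
      { toFun := dfun d κ
        map_zero' := by
          ext s
          rw [coeff_dfun, coeff_zero, map_zero, zero_mul, zero_add]
        map_add' := by
          intro f g
          ext s
          rw [coeff_add, coeff_dfun, coeff_dfun, coeff_dfun, coeff_add, map_add]
          ring })
    (by
      intro f g
      show dfun d κ (f * g) = f • dfun d κ g + g • dfun d κ f
      classical
      rw [smul_eq_mul, smul_eq_mul, mul_comm g]
      ext s
      rw [coeff_dfun, coeff_add, coeff_mul, coeff_mul, coeff_mul, map_sum, Finset.sum_mul,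
        ← Finset.sum_add_distrib, ← Finset.sum_add_distrib]
      refine Finset.sum_congr rfl fun x hx => ?_
      have hx' : x.1 + x.2 = s := by simpa using hx
      rw [coeff_dfun, coeff_dfun, d.leibniz, ← hx', cs_add, smul_eq_mul, smul_eq_mul]
      ring)

theorem dpol_apply (d : Derivation ℤ E E) (κ : Fin t → E) (f : MvPolynomial (Fin t) E) :
    dpol d κ f = dfun d κ f := rfl

theorem dpol_monomial (d : Derivation ℤ E E) (κ : Fin t → E) (s : Fin t →₀ ℕ) (a : E) :
    dpol d κ (monomial s a) = monomial s (d a + a * cs κ s) := by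
  classical
  ext m
  rw [dpol_apply, coeff_dfun, coeff_monomial, coeff_monomial]
  split_ifs with h
  · rw [h]
  · rw [map_zero, zero_mul, zero_add]

end poly

/-- logarithmic derivative of a product of powers -/
theorem der_prod {k K : Type} [CommRing k] [Field K] [Algebra k K] (D : Derivation k K K) {t : ℕ}
    (u : Fin t → K) (hu : ∀ j, u j ≠ 0) (s : Fin t → ℕ) (T : Finset (Fin t)) :
    D (∏ j ∈ T, u j ^ s j) = (∏ j ∈ T, u j ^ s j) * ∑ j ∈ T, (s j : K) * (D (u j) / u j) := by
  classical
  induction T using Finset.induction_on with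
  | empty => rw [Finset.prod_empty, Finset.sum_empty, mul_zero, D.map_one_eq_zero]
  | insert a T ha ih =>
    rw [Finset.prod_insert ha, Finset.sum_insert ha, D.leibniz, ih, D.leibniz_pow]
    simp only [smul_eq_mul, nsmul_eq_mul]
    have h1 : (s a : K) * (u a ^ (s a - 1) * D (u a)) = u a ^ s a * ((s a : K) * (D (u a) / u a)) := by
      rcases Nat.eq_zero_or_pos (s a) with h | h
      · rw [h]; simp
      · obtain ⟨n, hn⟩ := Nat.exists_eq_succ_of_ne_zero h.ne'
        rw [hn, Nat.succ_sub_one, Nat.succ_eq_add_one, pow_succ]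
        have := hu a
        field_simp
    rw [h1]
    ring

/-- the derivation on polynomials, abstractly -/
theorem hd_gen {k E K : Type} [CommRing k] [Field E] [Field K] [Algebra E K] [Algebra k K]
    (D : Derivation k K K) (hE : ∀ a : E, ∃ b : E, algebraMap E K b = D (algebraMap E K a))
    {t : ℕ} (u : Fin t → K) (hu0 : ∀ j, u j ≠ 0)
    (hu : ∀ j, ∃ b : E, algebraMap E K b = D (u j) / u j) :
    ∃ δ : Derivation ℤ (MvPolynomial (Fin t) E) (MvPolynomial (Fin t) E),
      (∀ (s : Fin t →₀ ℕ) (a : E), ∃ b : E, δ (monomial s a) = monomial s b) ∧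
      ∀ f, aeval u (δ f) = D (aeval u f) := by
  have hinj : Function.Injective (algebraMap E K) := (algebraMap E K).injective
  choose dE hdE using hE
  choose κ hκ using hu
  let d : Derivation ℤ E E := Derivation.mk'
    (AddMonoidHom.toIntLinearMap
      { toFun := dE
        map_zero' := hinj (by rw [hdE, map_zero, map_zero])
        map_add' := fun a b => hinj (by rw [hdE, map_add, map_add, map_add, hdE, hdE]) })
    (fun a b => hinj (by
      show algebraMap E K (dE (a * b)) = algebraMap E K (a * dE b + b * dE a)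
      rw [hdE, map_mul, D.leibniz, map_add, map_mul, map_mul, hdE, hdE, smul_eq_mul,
        smul_eq_mul]))
  have hd : ∀ a : E, algebraMap E K (d a) = D (algebraMap E K a) := hdE
  refine ⟨dpol d κ, fun s a => ⟨_, dpol_monomial d κ s a⟩, fun f => ?_⟩
  have hmon : ∀ s : Fin t →₀ ℕ, D (∏ j, u j ^ s j) =
      (∏ j, u j ^ s j) * algebraMap E K (cs κ s) := by
    intro s
    rw [der_prod D u hu0 s Finset.univ]
    congr 1
    unfold cs
    rw [map_sum]
    refine Finset.sum_congr rfl fun j _ => ?_
    rw [map_mul, map_natCast, hκ]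
  have hmv : ∀ (s : Fin t →₀ ℕ) (a : E), aeval u (monomial s a) =
      algebraMap E K a * ∏ j, u j ^ s j := by
    intro s a
    rw [aeval_monomial, Finsupp.prod_pow]
  induction f using MvPolynomial.induction_on' with
  | monomial s a =>
    rw [dpol_monomial, hmv, hmv, D.leibniz, hmon, smul_eq_mul, smul_eq_mul, map_add, map_mul, hd]
    ring
  | add p q hp hq =>
    rw [map_add, map_add, hp, hq, map_add, map_add]

section local_

variable {k : Type} [Field k] [IsAlgClosed k] [CharZero k] {K : Type} [Field K] [Algebra k K]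
  [IsFF k K]

/-- the order of a derivative -/
theorem ord_der_ge (P : Place k K) {D : Derivation k K K} (hD : D ≠ 0) {f : K} (hDf : D f ≠ 0) :
    P.ord f - (if P.ord f = 0 then 0 else 1) - |vo P D| ≤ P.ord (D f) := by
  have h0 := neg_abs_le (vo P D)
  split_ifs with h
  · obtain ⟨g, hg, e⟩ := der_mul P (ord_unif P) hD (f := f) (Or.inr h.ge)
    have hg0 : g ≠ 0 := by
      rintro rfl
      exact hDf (by rw [e, mul_zero])
    rw [e, P.ord_mul (der_pi_ne_zero hD P (ord_unif P)) hg0]
    have h1 := hg.resolve_left hg0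
    have h2 : P.ord (D (unif P)) = vo P D := rfl
    rw [h2]
    omega
  · have h1 := (ord_der P hD h).2
    omega

theorem hgt_le_of (z : K) (e : Place k K → ℤ) (h : ∀ P : Place k K, max (-P.ord z) 0 ≤ e P)
    {C : ℤ} (hC : ∀ T : Finset (Place k K), ∑ P ∈ T, e P ≤ C) : hgt k z ≤ C := by
  obtain ⟨T, hT⟩ := exists_supp (k := k) (Finset.univ : Finset (Fin 1)) (fun _ => z)
  rw [hgt_finset z T (fun P hP => hT 0 (Finset.mem_univ _) P hP)]
  exact (Finset.sum_le_sum fun P _ => h P).trans (hC T)

end local_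

variable {I : Type} {𝒰 : Ultrafilter I} {k F : Type} [Field k] [IsAlgClosed k] [CharZero k]
  [Field F] {L : I → Type} [∀ i, Field (L i)] [∀ i, Algebra k (L i)] [∀ i, Algebra F (L i)]
  [∀ i, IsFF k (L i)]

/-- lower bounds of the order of a value of a polynomial -/
theorem low (Δ : Dt 𝒰 k F L) : S_LOW Δ := by
  intro t u hu f
  refine ⟨fun ω => ∑ s ∈ f.support, |oo ((f.coeff s : Δ.E) : UL 𝒰 L) ω|,
    Bd.sum Δ.nonneg f.support fun s _ => Δ.bd_E (f.coeff s).2, ?_⟩
  have hmon : ∀ s : Fin t →₀ ℕ, mon u s ≠ 0 := fun s =>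
    Finset.prod_ne_zero_iff.2 fun j _ => pow_ne_zero _ (hu j)
  have hval : aeval u f = ∑ s ∈ f.support, ((f.coeff s : Δ.E) : UL 𝒰 L) * mon u s := by
    rw [aeval_def, eval₂_eq']
    rfl
  have hev : ∀ᶠ ω in EV 𝒰 k L, ∀ s ∈ f.support, oo (((f.coeff s : Δ.E) : UL 𝒰 L) * mon u s) ω =
      oo ((f.coeff s : Δ.E) : UL 𝒰 L) ω + oo (mon u s) ω := by
    rw [Finset.eventually_all]
    intro s hs
    refine oo_mul ?_ (hmon s)
    intro h
    exact (mem_support_iff.1 hs) (Subtype.ext h)
  filter_upwards [oo_sum f.support (fun s => ((f.coeff s : Δ.E) : UL 𝒰 L) * mon u s), hev]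
    with ω h1 h2 m hm
  rw [hval]
  refine h1 _ fun s hs => Or.inr ?_
  rw [h2 s hs]
  have h3 := hm s hs
  have h4 := neg_abs_le (oo ((f.coeff s : Δ.E) : UL 𝒰 L) ω)
  have h5 := Finset.single_le_sum
    (f := fun s => |oo ((f.coeff s : Δ.E) : UL 𝒰 L) ω|) (fun s _ => abs_nonneg _) hs
  linarith

/-- logarithmic derivatives -/
theorem ld (Δ : Dt 𝒰 k F L) : S_LD Δ := by
  obtain ⟨B, hB⟩ := Δ.vo_bd
  constructor
  · intro a ha
    obtain ⟨A, hA⟩ := Δ.mem_E.1 ha
    have h0 : uD (𝒰 := 𝒰) Δ.D a = um 𝒰 (fun i => Δ.D i (rep a i)) := rfl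
    rw [h0, Δ.hE.2]
    refine ⟨4 * A + B, ?_⟩
    filter_upwards [hA, hB, Δ.D_ne] with i h1 h2 h3
    refine hgt_le_of _ (fun P => |P.ord (rep a i)| + |P.ord (rep a i)| + |vo P (Δ.D i)|)
      (fun P => ?_) (fun T => ?_)
    · have h5 := abs_nonneg (P.ord (rep a i))
      have h6 := abs_nonneg (vo P (Δ.D i))
      refine max_le ?_ (by omega)
      by_cases hz : Δ.D i (rep a i) = 0
      · rw [hz, P.ord_zero]
        omega
      · have h4 := ord_der_ge P h3 hz
        have h7 := neg_abs_le (P.ord (rep a i))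
        split_ifs at h4 with h8
        · omega
        · have h9 : 0 < |P.ord (rep a i)| := abs_pos.2 h8
          omega
    · rw [Finset.sum_add_distrib, Finset.sum_add_distrib]
      have h4 := sum_abs_ord (k := k) (rep a i) T
      have h5 := h2 T
      push_cast
      linarith
  · rintro x ⟨hx, C, hC⟩
    have h0 : uD (𝒰 := 𝒰) Δ.D x / x = um 𝒰 (fun i => Δ.D i (rep x i) * (rep x i)⁻¹) := by
      rw [um_mul, um_inv, um_rep, div_eq_mul_inv]
      rfl
    rw [h0, Δ.hE.2]
    refine ⟨C + B, ?_⟩
    filter_upwards [hC, hB, Δ.D_ne, rep_ne hx] with i h1 h2 h3 hxi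
    refine hgt_le_of _ (fun P => (if oo x (⟨i, P⟩ : Om k L) = 0 then 0 else 1) + |vo P (Δ.D i)|)
      (fun P => ?_) (fun T => ?_)
    · have h6 := abs_nonneg (vo P (Δ.D i))
      have h8 : (0 : ℤ) ≤ (if oo x (⟨i, P⟩ : Om k L) = 0 then 0 else 1) := by split_ifs <;> norm_num
      refine max_le ?_ (by omega)
      by_cases hz : Δ.D i (rep x i) = 0
      · rw [hz, zero_mul, P.ord_zero]
        omega
      · have h4 := ord_der_ge P h3 hz
        rw [P.ord_mul hz (inv_ne_zero hxi), P.ord_inv]
        have h9 : oo x (⟨i, P⟩ : Om k L) = P.ord (rep x i) := rfl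
        rw [h9]
        omega
    · rw [Finset.sum_add_distrib]
      have h5 := h2 T
      have h6 := h1 T
      push_cast
      linarith

/-- the derivation on polynomials -/
theorem hd (Δ : Dt 𝒰 k F L) : S_HD Δ := by
  obtain ⟨hd1, hd2⟩ := ld Δ
  intro t u hu
  exact hd_gen (E := Δ.E) (K := UL 𝒰 L) (uD (𝒰 := 𝒰) Δ.D) (fun a => ⟨⟨_, hd1 _ a.2⟩, rfl⟩) u
    (fun j => (hu j).1) (fun j => ⟨⟨_, hd2 _ (hu j)⟩, rfl⟩)

end Pool.Agent.Y141.FG
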